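import Mathlib
import Pool.Agent.KS6_54.HT.HamF

/-!
# Bootstrap percolation on Hamming tori: planes appear before the torus fills

`V n d` is the vertex set of the Hamming torus `K_n^d`, `law n d p` the product Bernoulli law,
`SubgraphOpen θ i ω` says that some `i`-dimensional subgraph is open in the final configuration of
bootstrap percolation with threshold `θ`, and `IsCritical n d θ i p` says that `p` is a critical
value `p_c(i, d)`: the probability of `SubgraphOpen θ i` is one half. `Gap θ d δ` says that for all
large `n` the critical values `p_c(2, d)` and `p_c(d, d)` exist and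
`log_n p_c(d, d) - log_n p_c(2, d) ≥ δ`.

For threshold three the exponents differ in every dimension `d ≥ 72`.

Upper bound for the plane: two points in a row and two generic points of the plane open it, and
every plane contains about `n^7` such configurations; this gives the exponent `(d + 5) / 4`.
Lower bound for the torus: the open points are grouped into clusters; a cluster of `k` points spans
a subgraph of dimension at most `3 (k - 1) / 2`, since a point outside of the clusters has to see
three different clusters to become open. If no set of `k` open points, `m < k ≤ 2 m`, lies in a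
subgraph of dimension at most `(3 k - 2) / 2`, the torus does not fill. With `m = 4` the exponent is
at most `(d + 24) / 5` for `d ≥ 72`, with `m` about `4 √d / 7` it is at most `7 √d / 2 + 3 / 2`.
-/

set_option autoImplicit false

open MeasureTheory ProbabilityTheory

namespace Pool.Agent.Results.MP_af82af_pr.SharperGap

open Pool.Agent.KS6_54.HT

/-- (1) For threshold three and every `d ≥ 72` the gap is at least every `δ < (d - 71) / 20`; in
particular it is bounded away from zero. (2) For threshold three and `d ≥ 14` the gap is at least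
`d / 4 - (7 / 2) √d - 1 / 4`. (3) For every threshold `θ ≥ 3` and `d ≥ 2` it is at least
`2 (d - 2) / (θ (θ + 1)) - (7 / 2) √d - 3 / 2`. -/
theorem result :
    (∀ d : ℕ, 72 ≤ d → ∀ δ : ℝ, δ < ((d : ℝ) - 71) / 20 → Gap 3 d δ) ∧
    (∀ d : ℕ, 14 ≤ d → Gap 3 d ((d : ℝ) / 4 - 7 / 2 * √(d : ℝ) - 1 / 4)) ∧
    (∀ θ d : ℕ, 3 ≤ θ → 2 ≤ d →
      Gap θ d (2 * ((d : ℝ) - 2) / (θ * (θ + 1)) - 7 / 2 * √(d : ℝ) - 3 / 2)) := by
  refine ⟨?_, ?_, ?_⟩
  · intro d hd δ hδ
    have hdr : (72 : ℝ) ≤ d := by exact_mod_cast hd
    refine gap_gen (m := 4) (A := 4) (B := (d : ℝ) + 5) (c₁ := 22 * Real.log 2) le_rfl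
      (by norm_num) (by omega) (by omega) (by norm_num) (plane_three (by omega)) ?_
    intro k hk1 hk2
    have : k = 5 ∨ k = 6 ∨ k = 7 ∨ k = 8 := by omega
    rcases this with rfl | rfl | rfl | rfl <;> norm_num [fd] <;> linarith
  · intro d hd
    obtain ⟨m, hm, hm2, hm3⟩ := expo_le (d := d) (by omega)
    refine gap_gen (m := m) (A := 4) (B := (d : ℝ) + 5) (c₁ := 22 * Real.log 2) le_rfl
      hm hm2 (by omega) (by norm_num) (plane_three (by omega)) ?_
    intro k hk1 hk2
    have := hm3 k hk1 hk2
    linarith
  · intro θ d hθ hd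
    obtain ⟨m, hm, hm2, hm3⟩ := expo_le (d := d) (by omega)
    have h1 : 2 * (tri θ : ℝ) = θ * (θ + 1) := by exact_mod_cast two_mul_tri θ
    have hθr : (3 : ℝ) ≤ θ := by exact_mod_cast hθ
    have h2 : (0 : ℝ) < tri θ := by nlinarith
    refine gap_gen (m := m) (A := tri θ) (B := (d : ℝ) - 2) (c₁ := 0) hθ
      hm hm2 (by omega) h2 (plane_theta (by omega) (by omega)) ?_
    intro k hk1 hk2
    have h3 := hm3 k hk1 hk2
    have h4 : 2 * ((d : ℝ) - 2) / (θ * (θ + 1)) = ((d : ℝ) - 2) / tri θ := by
      rw [← h1]
      field_simp
    rw [h4]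
    linarith

end Pool.Agent.Results.MP_af82af_pr.SharperGap
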